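import Pool.Agent.Helper14.TT.StC

/-!
# Project TT, module Dect: decomposition of a symbol of level `2^n`, twisted values
-/

set_option autoImplicit false

namespace Pool.Agent.Helper47.TT

open Pool.Agent.Helper14.TT Pool.Agent.Helper14.CV
open Pool.Agent.Helper76.TX (evX NewSymS)

private theorem half_add {X Y X' Y' : ℤ → ℤ → ℂ} (h : EqC X X') (h' : EqC Y Y') :
    EqC ((1 / 2 : ℂ) • (X + Y)) ((1 / 2 : ℂ) • (X' + Y')) := (h.add h').smul _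

private theorem half_sub {X Y X' Y' : ℤ → ℤ → ℂ} (h : EqC X X') (h' : EqC Y Y') :
    EqC ((1 / 2 : ℂ) • (X - Y)) ((1 / 2 : ℂ) • (X' - Y')) := (h.sub h').smul _

/-- Averages over a pair of operators. -/
private theorem avg_add {a b c d : ℤ} {X Y X' Y' : ℤ → ℤ → ℂ} (h : EqC (act a b c d X) X')
    (h' : EqC (act a b c d Y) Y') :
    EqC (act a b c d ((1 / 2 : ℂ) • (X + Y))) ((1 / 2 : ℂ) • (X' + Y')) := by
  rw [act_smul, act_add]
  exact half_add h h'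

private theorem avg_sub {a b c d : ℤ} {X Y X' Y' : ℤ → ℤ → ℂ} (h : EqC (act a b c d X) X')
    (h' : EqC (act a b c d Y) Y') :
    EqC (act a b c d ((1 / 2 : ℂ) • (X - Y))) ((1 / 2 : ℂ) • (X' - Y')) := by
  rw [act_smul, act_sub]
  exact half_sub h h'

private theorem swap_add {a b c d : ℤ} {X Y X' Y' : ℤ → ℤ → ℂ} (h : EqC (act a b c d X) Y')
    (h' : EqC (act a b c d Y) X') :
    EqC (act a b c d ((1 / 2 : ℂ) • (X + Y))) ((1 / 2 : ℂ) • (X' + Y')) := by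
  have h2 := avg_add h h'
  have e : (1 / 2 : ℂ) • (Y' + X') = (1 / 2 : ℂ) • (X' + Y') := by rw [add_comm]
  rw [e] at h2
  exact h2

private theorem swap_sub {a b c d : ℤ} {X Y X' Y' : ℤ → ℤ → ℂ} (h : EqC (act a b c d X) Y')
    (h' : EqC (act a b c d Y) X') :
    EqC (act a b c d ((1 / 2 : ℂ) • (X - Y))) (-((1 / 2 : ℂ) • (X' - Y'))) := by
  have h2 := avg_sub h h'
  have e : (1 / 2 : ℂ) • (Y' - X') = -((1 / 2 : ℂ) • (X' - Y')) := by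
    rw [← smul_neg, neg_sub]
  rw [e] at h2
  exact h2

private theorem neg_add' {a b c d : ℤ} {X Y X' Y' : ℤ → ℤ → ℂ} (h : EqC (act a b c d X) (-X'))
    (h' : EqC (act a b c d Y) (-Y')) :
    EqC (act a b c d ((1 / 2 : ℂ) • (X + Y))) (-((1 / 2 : ℂ) • (X' + Y'))) := by
  have h2 := avg_add h h'
  have e : (1 / 2 : ℂ) • (-X' + -Y') = -((1 / 2 : ℂ) • (X' + Y')) := by
    rw [← smul_neg, neg_add]
  rw [e] at h2
  exact h2

private theorem neg_sub' {a b c d : ℤ} {X Y X' Y' : ℤ → ℤ → ℂ} (h : EqC (act a b c d X) (-X'))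
    (h' : EqC (act a b c d Y) (-Y')) :
    EqC (act a b c d ((1 / 2 : ℂ) • (X - Y))) (-((1 / 2 : ℂ) • (X' - Y'))) := by
  have h2 := avg_sub h h'
  have e : (1 / 2 : ℂ) • (-X' - -Y') = -((1 / 2 : ℂ) • (X' - Y')) := by
    rw [← smul_neg]
    congr 1
    abel
  rw [e] at h2
  exact h2

private theorem alg1 {κ : ℂ} (hκ : κ * κ = 1) (X Y : ℤ → ℤ → ℂ) :
    (1 / 2 : ℂ) • (Y + κ • X) = κ • ((1 / 2 : ℂ) • (X + κ • Y)) := by
  funext x y
  simp only [Pi.smul_apply, Pi.add_apply, smul_eq_mul]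
  linear_combination (-(1 / 2) * Y x y) * hκ

private theorem alg2 (κ : ℂ) (X Y : ℤ → ℤ → ℂ) :
    (1 / 2 : ℂ) • (κ • X - κ • Y) = κ • ((1 / 2 : ℂ) • (X - Y)) := by
  funext x y
  simp only [Pi.smul_apply, Pi.sub_apply, smul_eq_mul]
  ring

private theorem ev5 {κ : ℂ} (hκ : κ * κ = 1) (ev : (ℤ → ℤ → ℂ) →ₗ[ℂ] (ℕ → ℕ → ℂ))
    {X Y : ℤ → ℤ → ℂ} (h : ev Y = κ • ev X) : ev ((1 / 2 : ℂ) • (X + κ • Y)) = ev X := by
  rw [map_smul, map_add, map_smul, h, smul_smul, hκ, one_smul]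
  funext i j
  simp only [Pi.smul_apply, Pi.add_apply, smul_eq_mul]
  ring

private theorem ev6 (ev : (ℤ → ℤ → ℂ) →ₗ[ℂ] (ℕ → ℕ → ℂ))
    {X Y : ℤ → ℤ → ℂ} (h : ev Y = -ev X) : ev ((1 / 2 : ℂ) • (X - Y)) = ev X := by
  rw [map_smul, map_sub, h]
  funext i j
  simp only [Pi.smul_apply, Pi.sub_apply, Pi.neg_apply, smul_eq_mul]
  ring

private theorem ev7 {κ : ℂ} (hκ : κ * κ = 1) (ev : (ℤ → ℤ → ℂ) →ₗ[ℂ] (ℕ → ℕ → ℂ))
    {A C W : ℤ → ℤ → ℂ} (h : ev W = κ • ev A) : ev (C + κ • W) = ev C + ev A := by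
  rw [map_add, map_smul, h, smul_smul, hκ, one_smul]

private theorem ev8 (ev : (ℤ → ℤ → ℂ) →ₗ[ℂ] (ℕ → ℕ → ℂ)) (X Y : ℤ → ℤ → ℂ) :
    ev ((1 / 2 : ℂ) • (X + Y)) + ev ((1 / 2 : ℂ) • (X - Y)) = ev X := by
  rw [← map_add]
  congr 1
  funext x y
  simp only [Pi.smul_apply, Pi.add_apply, Pi.sub_apply, smul_eq_mul]
  ring

/-- The general decomposition with a sign `κ`. -/
private theorem core (hNrm : StNrm) (hLvl : StLvl) (hCom : StCom) (n : ℕ) (κ : ℂ)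
    (hκ : κ * κ = 1) (ev : (ℤ → ℤ → ℂ) →ₗ[ℂ] (ℕ → ℕ → ℂ))
    (hev : ∀ X : ℤ → ℤ → ℂ, Sym 0 n X → ev (act 0 (-1) (2 ^ n) 0 X) = κ • ev X ∧
      ev (act (-1) 0 0 1 X) = -ev X) (G : ℤ → ℤ → ℂ) (hn : 3 ≤ n) (hG : Sym 0 n G) :
    ∃ G0 G1 : ℤ → ℤ → ℂ, Sym 0 (n - 1) G0 ∧ (Sym 0 n G1 ∧ EqC (act 2 1 0 2 G1) (-G1) ∧
      EqC (act 1 0 (2 ^ (n - 1)) 1 G1) (-G1) ∧ EqC (act 0 (-1) (2 ^ n) 0 G1) (κ • G1) ∧
      EqC (act (-1) 0 0 1 G1) (-G1)) ∧ ev G = ev G0 + ev G1 := by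
  have hn2 : 2 ≤ n := by omega
  have hpow1 : (2 : ℤ) ^ n ≠ 0 := pow_ne_zero _ two_ne_zero
  have ds : (1 : ℤ) * 1 - 0 * 2 ^ (n - 1) ≠ 0 := by norm_num
  have dW : (0 : ℤ) * 0 - (-1) * 2 ^ n ≠ 0 := by
    intro h
    apply hpow1
    linarith
  have dx : (-1 : ℤ) * 1 - 0 * 0 ≠ 0 := by norm_num
  -- the symbols
  set A : ℤ → ℤ → ℂ := (1 / 2 : ℂ) • (G + act 2 1 0 2 G) with hA
  set B : ℤ → ℤ → ℂ := (1 / 2 : ℂ) • (G - act 2 1 0 2 G) with hB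
  set C : ℤ → ℤ → ℂ := (1 / 2 : ℂ) • (B + act 1 0 (2 ^ (n - 1)) 1 B) with hC
  set E : ℤ → ℤ → ℂ := (1 / 2 : ℂ) • (B - act 1 0 (2 ^ (n - 1)) 1 B) with hE
  set F : ℤ → ℤ → ℂ := (1 / 2 : ℂ) • (E + κ • act 0 (-1) (2 ^ n) 0 E) with hF
  set G1 : ℤ → ℤ → ℂ := (1 / 2 : ℂ) • (F - act (-1) 0 0 1 F) with hG1
  have subS : ∀ X Y : ℤ → ℤ → ℂ, Sym 0 n X → Sym 0 n Y → Sym 0 n (X - Y) := by
    intro X Y hX hY
    rw [sub_eq_add_neg]
    exact hX.add hY.neg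
  have sA : Sym 0 n A := (hG.add (hNrm n G hn2 hG).2.1).smul _
  have sB : Sym 0 n B := (subS _ _ hG (hNrm n G hn2 hG).2.1).smul _
  have sC : Sym 0 n C := (sB.add (hNrm n B hn2 sB).2.2.1).smul _
  have sE : Sym 0 n E := (subS _ _ sB (hNrm n B hn2 sB).2.2.1).smul _
  have sF : Sym 0 n F := (sE.add ((hNrm n E hn2 sE).1.smul κ)).smul _
  have sG1 : Sym 0 n G1 := (subS _ _ sF (hNrm n F hn2 sF).2.2.2).smul _
  -- relations
  have tA : EqC (act 2 1 0 2 A) A := by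
    exact swap_add (EqC.refl (act 2 1 0 2 G)) (hCom n G hn hG).1
  have tB : EqC (act 2 1 0 2 B) (-B) := by
    exact swap_sub (EqC.refl (act 2 1 0 2 G)) (hCom n G hn hG).1
  have sCC : EqC (act 1 0 (2 ^ (n - 1)) 1 C) C := by
    exact swap_add (EqC.refl (act 1 0 (2 ^ (n - 1)) 1 B)) (hCom n B hn sB).2.1
  have sEE : EqC (act 1 0 (2 ^ (n - 1)) 1 E) (-E) := by
    exact swap_sub (EqC.refl (act 1 0 (2 ^ (n - 1)) 1 B)) (hCom n B hn sB).2.1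
  have tE : EqC (act 2 1 0 2 E) (-E) := by
    have h1 : EqC (act 2 1 0 2 (act 1 0 (2 ^ (n - 1)) 1 B)) (-(act 1 0 (2 ^ (n - 1)) 1 B)) := by
      refine (hCom n B hn sB).2.2.2.2.1.trans ?_
      have := tB.act ds
      rw [act_neg] at this
      exact this
    exact neg_sub' tB h1
  have WF : EqC (act 0 (-1) (2 ^ n) 0 F) (κ • F) := by
    have h1 : EqC (act 0 (-1) (2 ^ n) 0 (κ • act 0 (-1) (2 ^ n) 0 E)) (κ • E) := by
      rw [act_smul]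
      exact (hCom n E hn sE).2.2.1.smul κ
    have h2 := avg_add (EqC.refl (act 0 (-1) (2 ^ n) 0 E)) h1
    exact alg1 hκ E (act 0 (-1) (2 ^ n) 0 E) ▸ h2
  have tF : EqC (act 2 1 0 2 F) (-F) := by
    have h1 : EqC (act 2 1 0 2 (κ • act 0 (-1) (2 ^ n) 0 E))
        (-(κ • act 0 (-1) (2 ^ n) 0 E)) := by
      rw [act_smul, ← smul_neg]
      refine EqC.smul κ ?_
      refine (hCom n E hn sE).2.2.2.2.2.1.trans ?_
      have := sEE.act dW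
      rw [act_neg] at this
      exact this
    exact neg_add' tE h1
  have sFF : EqC (act 1 0 (2 ^ (n - 1)) 1 F) (-F) := by
    have h1 : EqC (act 1 0 (2 ^ (n - 1)) 1 (κ • act 0 (-1) (2 ^ n) 0 E))
        (-(κ • act 0 (-1) (2 ^ n) 0 E)) := by
      rw [act_smul, ← smul_neg]
      refine EqC.smul κ ?_
      refine (hCom n E hn sE).2.2.2.2.2.2.1.trans ?_
      have := tE.act dW
      rw [act_neg] at this
      exact this
    exact neg_add' sEE h1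
  have xG1 : EqC (act (-1) 0 0 1 G1) (-G1) := by
    exact swap_sub (EqC.refl (act (-1) 0 0 1 F)) (hCom n F hn sF).2.2.2.1
  have tG1 : EqC (act 2 1 0 2 G1) (-G1) := by
    have h1 : EqC (act 2 1 0 2 (act (-1) 0 0 1 F)) (-(act (-1) 0 0 1 F)) := by
      refine (hCom n F hn sF).2.2.2.2.2.2.2.1.trans ?_
      have := tF.act dx
      rw [act_neg] at this
      exact this
    exact neg_sub' tF h1
  have sG1' : EqC (act 1 0 (2 ^ (n - 1)) 1 G1) (-G1) := by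
    have h1 : EqC (act 1 0 (2 ^ (n - 1)) 1 (act (-1) 0 0 1 F)) (-(act (-1) 0 0 1 F)) := by
      refine (hCom n F hn sF).2.2.2.2.2.2.2.2.1.trans ?_
      have := sFF.act dx
      rw [act_neg] at this
      exact this
    exact neg_sub' sFF h1
  have WG1 : EqC (act 0 (-1) (2 ^ n) 0 G1) (κ • G1) := by
    have h1 : EqC (act 0 (-1) (2 ^ n) 0 (act (-1) 0 0 1 F)) (κ • act (-1) 0 0 1 F) := by
      refine (hCom n F hn sF).2.2.2.2.2.2.2.2.2.trans ?_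
      have := WF.act dx
      rw [act_smul] at this
      exact this
    have h2 := avg_sub WF h1
    rw [alg2] at h2
    exact h2
  have lA : Sym 0 (n - 1) (act 0 (-1) (2 ^ n) 0 A) := (hLvl n A hn2 sA).2 tA
  have lC : Sym 0 (n - 1) C := (hLvl n C hn2 sC).1 sCC
  refine ⟨C + κ • act 0 (-1) (2 ^ n) 0 A, G1, lC.add (lA.smul κ),
    ⟨sG1, tG1, sG1', WG1, xG1⟩, ?_⟩
  have eA := (hev A sA).1
  have eE := (hev E sE).1
  have eF := (hev F sF).2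
  have e5 : ev F = ev E := ev5 hκ ev eE
  have e6 : ev G1 = ev F := ev6 ev eF
  have e7 : ev (C + κ • act 0 (-1) (2 ^ n) 0 A) = ev C + ev A := ev7 hκ ev eA
  have e8 : ev A + ev B = ev G := ev8 ev G (act 2 1 0 2 G)
  have e9 : ev C + ev E = ev B := ev8 ev B (act 1 0 (2 ^ (n - 1)) 1 B)
  rw [e7, e6, e5, ← e8, ← e9]
  abel

theorem hDect (hSgn : Sgn) (hNrm : StNrm) (hLvl : StLvl) (hCom : StCom) : Dect := by
  intro l n G hl hl4 hn hG
  have hl2 : ¬ (2 : ℕ) ∣ l := by omega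
  have hc : (jacobiSym 2 l) * (jacobiSym 2 l) = 1 := by
    have h1 : Int.gcd 2 l = 1 := by
      have : Nat.Coprime 2 l := (Nat.coprime_primes Nat.prime_two hl).mpr (by omega)
      simpa [Int.gcd] using this
    have h2 := jacobiSym.sq_one h1
    rw [pow_two] at h2
    exact h2
  have hκ : (((jacobiSym 2 l) ^ n : ℤ) : ℂ) * (((jacobiSym 2 l) ^ n : ℤ) : ℂ) = 1 := by
    rw [← Int.cast_mul, ← mul_pow, hc, one_pow, Int.cast_one]
  obtain ⟨G0, G1, h0, ⟨h1, h2, h3, h4, h5⟩, h6⟩ := core hNrm hLvl hCom n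
    (((jacobiSym 2 l) ^ n : ℤ) : ℂ) hκ (evX l) (fun X hX => by
      have h := hSgn l n X hl hl4 (by omega) hX
      refine ⟨?_, h.2⟩
      rw [h.1]
      exact (Int.cast_smul_eq_zsmul ℂ _ _).symm) G hn hG
  refine ⟨G0, G1, h0, ⟨h1, h2, h3, ?_, ?_⟩, h6⟩
  · have e : -(wT l n • G1) = (((jacobiSym 2 l) ^ n : ℤ) : ℂ) • G1 := by
      rw [wT, neg_smul, neg_neg]
      exact (Int.cast_smul_eq_zsmul ℂ _ _).symm
    rw [e]
    exact h4
  · rw [neg_smul, one_smul]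
    exact h5

end Pool.Agent.Helper47.TT
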